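import Pool.Agent.W290.LG.Fin2
import Pool.Agent.W303.LG.G
import Pool.Agent.W463.H10.Terms

/-!
# Polynomial equations over `ℚ` with a promise: the reduction
-/

set_option autoImplicit false

namespace Pool.Agent.TH716.QN

open Pool.Agent Pool.Agent.NPC Pool.Agent.H528R2 Pool.Agent.W290.LG
open Pool.Agent.W463.H10 (mulT sqs)

/-- the value of a polynomial, given by the list of its terms, over a field -/
def val {K : Type} [Field K] (x : ℕ → K) (p : List (ℤ × List ℕ)) : K :=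
  (p.map fun t => (t.1 : K) * (t.2.map x).prod).sum

section
variable {K : Type} [Field K]

theorem val_nil (x : ℕ → K) : val x [] = 0 := rfl

theorem val_cons (x : ℕ → K) (t : ℤ × List ℕ) (p : List (ℤ × List ℕ)) :
    val x (t :: p) = (t.1 : K) * (t.2.map x).prod + val x p := by
  simp [val]

theorem val_append (x : ℕ → K) (p q : List (ℤ × List ℕ)) :
    val x (p ++ q) = val x p + val x q := by
  simp [val]

theorem val_mul_aux (x : ℕ → K) (s : ℤ × List ℕ) (q : List (ℤ × List ℕ)) :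
    val x (q.map fun t => (s.1 * t.1, s.2 ++ t.2)) = (s.1 : K) * (s.2.map x).prod * val x q := by
  induction q with
  | nil => simp [val]
  | cons t q ih =>
    rw [List.map_cons, val_cons, ih, val_cons]
    simp only [List.map_append, List.prod_append]
    push_cast
    ring

theorem val_mulT (x : ℕ → K) (p q : List (ℤ × List ℕ)) :
    val x (mulT p q) = val x p * val x q := by
  induction p with
  | nil => simp [val, mulT]
  | cons s p ih =>
    have : mulT (s :: p) q = (q.map fun t => (s.1 * t.1, s.2 ++ t.2)) ++ mulT p q := rfl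
    rw [this, val_append, ih, val_mul_aux, val_cons]
    ring

/-- the difference of the two sides of a constraint -/
def conT : ER.Con → List (ℤ × List ℕ)
  | .one i => [(1, [i]), (-1, [])]
  | .add i j k => [(1, [i]), (1, [j]), (-1, [k])]
  | .mul i j k => [(1, [i, j]), (-1, [k])]

theorem conT_iff (v : ℕ → K) (c : ER.Con) : val v (conT c) = 0 ↔ HoldsK v c := by
  cases c with
  | one i => simp [conT, val, HoldsK, sub_eq_zero, ← sub_eq_add_neg]
  | add i j k =>
    simp only [conT, val, HoldsK, List.map_cons, List.map_nil, List.prod_cons, List.prod_nil,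
      List.sum_cons, List.sum_nil, mul_one, Int.cast_one, one_mul, Int.cast_neg, add_zero]
    constructor
    · intro h; linear_combination h
    · intro h; linear_combination h
  | mul i j k =>
    simp only [conT, val, HoldsK, List.map_cons, List.map_nil, List.prod_cons, List.prod_nil,
      List.sum_cons, List.sum_nil, mul_one, Int.cast_one, one_mul, Int.cast_neg, add_zero]
    constructor
    · intro h; linear_combination h
    · intro h; linear_combination h

/-- one quartic equation -/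
def qT (S : List ER.Con) : List (ℤ × List ℕ) := sqs (S.map conT)

theorem qT_cons (c : ER.Con) (S : List ER.Con) : qT (c :: S) = mulT (conT c) (conT c) ++ qT S := rfl

theorem qT_of_holds (v : ℕ → K) (S : List ER.Con) (h : ∀ c ∈ S, HoldsK v c) :
    val v (qT S) = 0 := by
  induction S with
  | nil => rfl
  | cons c S ih =>
    rw [qT_cons, val_append, val_mulT, (conT_iff v c).2 (h c (by simp)),
      ih (fun c hc => h c (by simp [hc]))]
    ring

end

theorem val_qT_nonneg (v : ℕ → ℚ) (S : List ER.Con) : 0 ≤ val v (qT S) := by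
  induction S with
  | nil => exact le_rfl
  | cons c S ih =>
    rw [qT_cons, val_append, val_mulT]
    have := mul_self_nonneg (val v (conT c))
    linarith

theorem holds_of_qT (v : ℕ → ℚ) (S : List ER.Con) (h : val v (qT S) = 0) :
    ∀ c ∈ S, HoldsK v c := by
  induction S with
  | nil => simp
  | cons c S ih =>
    rw [qT_cons, val_append, val_mulT] at h
    have h1 := mul_self_nonneg (val v (conT c))
    have h2 := val_qT_nonneg v S
    intro d hd
    rcases List.mem_cons.1 hd with rfl | hd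
    · exact (conT_iff v d).1 (mul_self_eq_zero.1 (by linarith))
    · exact ih (by linarith) d hd

theorem mulT_bd {p q : List (ℤ × List ℕ)} (hp : ∀ t ∈ p, (t.1 = 1 ∨ t.1 = -1) ∧ t.2.length ≤ 2)
    (hq : ∀ t ∈ q, (t.1 = 1 ∨ t.1 = -1) ∧ t.2.length ≤ 2) :
    ∀ t ∈ mulT p q, (t.1 = 1 ∨ t.1 = -1) ∧ t.2.length ≤ 4 := by
  intro t ht
  unfold mulT at ht
  obtain ⟨s, hs, ht⟩ := List.mem_flatMap.1 ht
  obtain ⟨u, hu, rfl⟩ := List.mem_map.1 ht
  obtain ⟨a1, a2⟩ := hp s hs
  obtain ⟨b1, b2⟩ := hq u hu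
  refine ⟨?_, by simp only [List.length_append]; omega⟩
  rcases a1 with a | a <;> rcases b1 with b | b <;> rw [a, b] <;> norm_num

theorem qT_bd (S : List ER.Con) : ∀ t ∈ qT S, (t.1 = 1 ∨ t.1 = -1) ∧ t.2.length ≤ 4 := by
  intro t ht
  unfold qT sqs at ht
  obtain ⟨p, hp, ht⟩ := List.mem_flatMap.1 ht
  obtain ⟨c, -, rfl⟩ := List.mem_map.1 hp
  refine mulT_bd ?_ ?_ t ht <;>
  · intro t ht
    cases c <;> simp only [conT, List.mem_cons, List.not_mem_nil, or_false] at ht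
    · rcases ht with rfl | rfl <;> simp
    · rcases ht with rfl | rfl | rfl <;> simp
    · rcases ht with rfl | rfl <;> simp

section
variable {α : Type} [TEnc α]

theorem conT_eq (c : ER.Con) : conT c =
    if c.code.1 = 0 then [(1, [c.code.2.1]), (-1, [])]
    else if c.code.1 = 1 then [(1, [c.code.2.1]), (1, [c.code.2.2.1]), (-1, [c.code.2.2.2])]
    else [(1, [c.code.2.1, c.code.2.2.1]), (-1, [c.code.2.2.2])] := by
  cases c <;> rfl

theorem poly_conT {c : α → ER.Con} (hc : NPC.Poly c) : NPC.Poly (fun a => conT (c a)) := by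
  have h0 : NPC.Poly (fun a => (c a).code) := ER.poly_con_code hc
  have h1 : NPC.Poly (fun a => (c a).code.1) := NPC.Poly.fst h0
  have h2 : NPC.Poly (fun a => (c a).code.2.1) := NPC.Poly.fst (NPC.Poly.snd h0)
  have h3 : NPC.Poly (fun a => (c a).code.2.2.1) := NPC.Poly.fst (NPC.Poly.snd (NPC.Poly.snd h0))
  have h4 : NPC.Poly (fun a => (c a).code.2.2.2) := NPC.Poly.snd (NPC.Poly.snd (NPC.Poly.snd h0))
  have hs : ∀ {f : α → ℕ}, NPC.Poly f → NPC.Poly (fun a => [f a]) := fun hf =>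
    NPC.Poly.cons hf (NPC.Poly.const _)
  refine (NPC.Poly.ite (NPC.Poly.decide_eq h1 (NPC.Poly.const 0)) ?_ (NPC.Poly.ite
    (NPC.Poly.decide_eq h1 (NPC.Poly.const 1)) ?_ ?_)).congr fun a => (conT_eq (c a)).symm
  · exact NPC.Poly.cons (NPC.Poly.pair (NPC.Poly.const _) (hs h2)) (NPC.Poly.const _)
  · exact NPC.Poly.cons (NPC.Poly.pair (NPC.Poly.const _) (hs h2))
      (NPC.Poly.cons (NPC.Poly.pair (NPC.Poly.const _) (hs h3))
      (NPC.Poly.cons (NPC.Poly.pair (NPC.Poly.const _) (hs h4)) (NPC.Poly.const _)))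
  · exact NPC.Poly.cons (NPC.Poly.pair (NPC.Poly.const _) (NPC.Poly.cons h2 (hs h3)))
      (NPC.Poly.cons (NPC.Poly.pair (NPC.Poly.const _) (hs h4)) (NPC.Poly.const _))

theorem poly_qT : NPC.Poly (fun S : List ER.Con => qT S) := by
  unfold qT
  refine Pool.Agent.W463.H10.poly_sqs ?_
  refine NPC.Poly.map (F := fun _ c => conT c) NPC.Poly.id ?_
  exact poly_conT (NPC.Poly.snd NPC.Poly.id)

end

/-- the promise -/
structure Prm {n : ℕ} (P : MvPolynomial (Fin n) ℤ) (p : List (ℤ × List ℕ)) : Prop where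
  bd : ∀ t ∈ p, (t.1 = 1 ∨ t.1 = -1) ∧ t.2.length ≤ 4
  real : ∃ x : ℕ → ℝ, val x p = 0
  padic : ∀ (q : ℕ) [Fact q.Prime], ∃ x : ℕ → ℚ_[q], val x p = 0
  sqr : ∀ (K : Type) [Field K] [CharZero K], (∃ x : K, x ^ 2 = 2 ∨ x ^ 2 = 17 ∨ x ^ 2 = 34) →
    ∃ x : ℕ → K, val x p = 0
  ext : ∀ (K : Type) [Field K] [CharZero K], (∃ x : Fin n → K, MvPolynomial.aeval x P = 0) →
    ∃ x : ℕ → K, val x p = 0

/-- the general reduction -/
theorem red {n : ℕ} (P : MvPolynomial (Fin n) ℤ)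
    (hP : ∀ x : Fin n → ℚ, MvPolynomial.aeval x P ≠ 0) :
    ∃ g : List ER.Con → List (ℤ × List ℕ), NPC.Poly g ∧ ∀ S : List ER.Con, Prm P (g S) ∧
      (QSat S ↔ ∃ x : ℕ → ℚ, val x (g S) = 0) := by
  obtain ⟨T₁, hT₁⟩ := Pool.Agent.W303.LG.t_G n P
  obtain ⟨T₂, hT₂, hT₂'⟩ := hE
  obtain ⟨d, -, hd⟩ := hD T₂
  obtain ⟨g, hg, hgS⟩ := hD (d T₁)
  have hval : ∀ (K : Type) [Field K] (S : List ER.Con), KSat K (g S) →
      ∃ x : ℕ → K, val x (qT (g S)) = 0 := fun K _ S ⟨v, hv⟩ => ⟨v, qT_of_holds v _ hv⟩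
  refine ⟨fun S => qT (g S), poly_qT.comp hg, fun S => ?_⟩
  have hrep : ∀ (K : Type) [Field K] [CharZero K], KSat K T₁ ∨ KSat K T₂ →
      ∃ x : ℕ → K, val x (qT (g S)) = 0 := by
    intro K _ _ hK
    exact hval K S ((hgS K S).2 (Or.inr ((hd K T₁).2 hK)))
  refine ⟨⟨qT_bd _, ?_, ?_, ?_, ?_⟩, ?_⟩
  · exact hrep ℝ (Or.inr (hT₂' ℝ ⟨Real.sqrt 2, Or.inl (Real.sq_sqrt (by norm_num))⟩))
  · intro p _
    exact hrep ℚ_[p] (Or.inr (hT₂' ℚ_[p] (hF p)))
  · intro K _ _ hx
    exact hrep K (Or.inr (hT₂' K hx))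
  · intro K _ _ hx
    exact hrep K (Or.inl ((hT₁ K).2 hx))
  · have hno : ¬ KSat ℚ (d T₁) := by
      rw [hd ℚ]
      rintro (h | h)
      · obtain ⟨x, hx⟩ := (hT₁ ℚ).1 h
        exact hP x hx
      · exact hT₂ h
    rw [← ksat_rat]
    constructor
    · intro h
      exact hval ℚ S ((hgS ℚ S).2 (Or.inl h))
    · rintro ⟨x, hx⟩
      exact ((hgS ℚ S).1 ⟨x, holds_of_qT x _ hx⟩).resolve_right hno

theorem part_nexp {n : ℕ} (P : MvPolynomial (Fin n) ℤ)
    (hP : ∀ x : Fin n → ℚ, MvPolynomial.aeval x P ≠ 0) (L : Set (List Bool)) (hL : InNEXP L) :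
    ∃ f : List Bool → List (ℤ × List ℕ), PolyTime (fun w => bits (f w)) ∧
      ∀ w, Prm P (f w) ∧ (w ∈ L ↔ ∃ x : ℕ → ℚ, val x (f w) = 0) := by
  obtain ⟨g, hg, hg'⟩ := red P hP
  obtain ⟨f, hf, hfL⟩ := hardX_QSat L hL
  refine ⟨fun w => g (f w), PC.toPolyTime (PC.comp (eb := (bits : List ER.Con → List Bool))
    (g := g) (f := f) hg hf), fun w => ⟨(hg' (f w)).1, (hfL w).trans (hg' (f w)).2⟩⟩

theorem hard_yes {n : ℕ} (P : MvPolynomial (Fin n) ℤ)
    (hP : ∀ x : Fin n → ℚ, MvPolynomial.aeval x P ≠ 0) :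
    NEXPHard (lang (fun p => Prm P p ∧ ∃ x : ℕ → ℚ, val x p = 0)) := by
  intro L hL
  obtain ⟨f, hf, hfw⟩ := part_nexp P hP L hL
  refine ⟨fun w => bits (f w), hf, fun w => ?_⟩
  obtain ⟨h1, h3⟩ := hfw w
  rw [h3, bits_mem_lang]
  exact ⟨fun h => ⟨h1, h⟩, fun h => h.2⟩

theorem hard_no {n : ℕ} (P : MvPolynomial (Fin n) ℤ)
    (hP : ∀ x : Fin n → ℚ, MvPolynomial.aeval x P ≠ 0) :
    NEXPHard (lang (fun p => Prm P p ∧ ¬ ∃ x : ℕ → ℚ, val x p = 0))ᶜ := by
  intro L hL
  obtain ⟨f, hf, hfw⟩ := part_nexp P hP L hL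
  refine ⟨fun w => bits (f w), hf, fun w => ?_⟩
  obtain ⟨h1, h3⟩ := hfw w
  rw [h3, Set.mem_compl_iff, bits_mem_lang]
  exact ⟨fun h h' => h'.2 h, fun h => by
    by_contra h'
    exact h ⟨h1, h'⟩⟩

end Pool.Agent.TH716.QN
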